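import Mathlib
import Pool.Agent.Q109.AS_WIN
import Pool.Agent.Q109.AS_FIN
import Pool.Agent.Q44.AS.Ch
import Pool.Agent.Q247.AS_LOW
import Pool.Agent.Q231.AS_UP
import Pool.Agent.Q147.AS_NP

/-!
# MP_15e61c_co: the threshold `c'` lies between `3 / 4` and `10 / 11`

Lower bound: cut `[1, n]` into blocks of length about `n ^ c`. For a block `T` let `U_T` be the set of
the numbers `a_i - i` and `V_T` the set of the numbers `a_i + i` (normalised). The differences
`V_T - U_T` contain all `2 r`, and the sums `U_T + V_{T'}`, `T < T'`, are in `S(a)`. Ruzsa's triangle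
inequalities for three blocks in arithmetic progression, multiplied along a long progression of
blocks, show that the windows of `S(a)` at the distances `t` or `2 t` have about `n ^ (2 c / 3)`
elements.

Upper bound: digits in base `13` taken from the Golomb ruler `0, 1, 4, 6`.
-/

set_option autoImplicit false

namespace Pool.Agent.Results.MP_15e61c_co.Threshold

/-- the set `S(a)` of the numbers `a_i + a_j + (j - i)` with `1 ≤ i < j ≤ n` -/
def S (n : ℕ) (a : ℕ → ℕ) : Set ℕ :=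
  {z | ∃ i j : ℕ, 1 ≤ i ∧ i < j ∧ j ≤ n ∧ z = a i + a j + (j - i)}

/-- the property `P(c)`: there are `δ > 0` and `n₀` such that for every `n ≥ n₀` and all non-negative
integers `a_1, …, a_n`, all at most `n ^ c`, the set `S(a)` has at least `δ n ^ c` elements -/
def P (c : ℝ) : Prop :=
  ∃ δ : ℝ, 0 < δ ∧ ∃ n₀ : ℕ, ∀ n : ℕ, n₀ ≤ n → ∀ a : ℕ → ℕ,
    (∀ i, 1 ≤ i → i ≤ n → (a i : ℝ) ≤ (n : ℝ) ^ c) → δ * (n : ℝ) ^ c ≤ ((S n a).ncard : ℝ)

/-- the threshold `c'`: the supremum of the `c` in `[0, 1]` with `P(c)` -/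
noncomputable def cPrime : ℝ := sSup {c : ℝ | 0 ≤ c ∧ c ≤ 1 ∧ P c}

theorem result : (∀ c : ℝ, c < 3 / 4 → P c) ∧ (∀ c : ℝ, 10 / 11 ≤ c → ¬ P c) ∧
    3 / 4 ≤ cPrime ∧ cPrime ≤ 10 / 11 := by
  have h1 : ∀ K : ℕ, 1 ≤ K → Pool.Agent.Q109.AS.P (3 * K / (4 * K + 1)) :=
    Pool.Agent.Q109.AS.low (Pool.Agent.Q109.AS.win Pool.Agent.Q44.AS.ch)
  have h2 : ¬ Pool.Agent.Q109.AS.P (10 / 11) := Pool.Agent.Q109.AS.np Pool.Agent.Q109.AS.up
  have h3 := Pool.Agent.Q109.AS.fin_sup h1 h2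
  exact ⟨Pool.Agent.Q109.AS.fin_low h1, Pool.Agent.Q109.AS.fin_up h2, h3.1, h3.2⟩

end Pool.Agent.Results.MP_15e61c_co.Threshold
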